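import Pool.Agent.Lib.CT17.All

namespace Pool.Agent.Results.MP_5f4cd2_co.AllRanksUpper

open Pool.Agent.Lib.MP_5f4cd2_co

/-- With `q = |F|` and `Q = q^(n-k)`: for fixed `F`, `r`, `ε`,
`T_q(n,k,r) ≤ C Q^(r-1+ε) (k+Q)` for all `r ≤ k < n`. -/
theorem result (F : Type) [Field F] [Fintype F] (r : ℕ) (hr : 1 ≤ r) (ε : ℝ) (hε : 0 < ε) :
    ∃ C : ℝ, ∀ n k : ℕ, r ≤ k → k < n → ∀ Q : ℝ, Q = (Fintype.card F : ℝ) ^ (n - k) →
      (T F n k r : ℝ) ≤ C * Q ^ ((r : ℝ) - 1 + ε) * (k + Q) := by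
  obtain ⟨C, hC⟩ := CT17.upper_all (F := F) r hr ε hε
  refine ⟨C, fun n k _ _ Q hQ => ?_⟩
  have hQ0 : 0 < Q := by
    rw [hQ]
    exact pow_pos (by exact_mod_cast Fintype.card_pos) _
  have e : Q ^ ((r : ℝ) - 1) = Q ^ (r - 1) := by
    rw [← Real.rpow_natCast, Nat.cast_sub hr, Nat.cast_one]
  have h := hC n k
  rw [← hQ] at h
  rw [Real.rpow_add hQ0, e]
  exact h.trans (le_of_eq (by ring))

end Pool.Agent.Results.MP_5f4cd2_co.AllRanksUpper
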