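import Pool.Agent.Lib.SH17.All

namespace Pool.Agent.Results.MP_5f4cd2_co.Asymptotic

open Pool.Agent.Lib.MP_5f4cd2_co

/-- With `q = |F|`: `T_q(n,k,r) ≤ (1+ε) q^(r(n-k))`, `ε = 8 r s (r l)^(r+1) q^(r-l)`, whenever
`ε ≤ 1`, `k ≤ 2^s (r l)^2` and `n - k ≥ r l^2 (r+s)`. -/
theorem result (F : Type) [Field F] [Fintype F] (r l s n k : ℕ) (hr : 1 ≤ r) (hl : 1 ≤ l)
    (_hrk : r ≤ k) (hk : k ≤ 2 ^ s * (r * l) ^ 2) (hn : k + r * l ^ 2 * (r + s) ≤ n) (q ε : ℝ)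
    (hq : q = Fintype.card F) (hε : ε = 8 * r * s * (r * l : ℝ) ^ (r + 1) * q ^ r / q ^ l)
    (h1 : ε ≤ 1) : (T F n k r : ℝ) ≤ (1 + ε) * q ^ (r * (n - k)) := by
  subst hq
  exact SH17.explicit F r l s n k hr hl hk (by omega) ε hε h1

end Pool.Agent.Results.MP_5f4cd2_co.Asymptotic
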