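import Pool.Agent.Lib.MP_5f4cd2_co.Lower

namespace Pool.Agent.Results.MP_5f4cd2_co.LowerBound

open Pool.Agent.Lib.MP_5f4cd2_co

/-- With `q = |F|`, `Q = q^(n-k)` and `1 ≤ r ≤ k < n`:
`T_q(n,k,r) ≥ Q^(r-1) (⌈(k-r+1)(q-1)/(Q-1)⌉ (Q-1) + 1)`. -/
theorem result (F : Type) [Field F] [Fintype F] (n k r : ℕ) (hr : 1 ≤ r) (hrk : r ≤ k)
    (hkn : k < n) :
    (Fintype.card F ^ (n - k)) ^ (r - 1) *
      (⌈((k : ℚ) - r + 1) * ((Fintype.card F : ℚ) - 1) /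
          ((Fintype.card F : ℚ) ^ (n - k) - 1)⌉₊ * (Fintype.card F ^ (n - k) - 1) + 1)
      ≤ T F n k r := by
  classical
  obtain ⟨r, rfl⟩ : ∃ r', r = r' + 1 := ⟨r - 1, by omega⟩
  obtain ⟨k, rfl⟩ : ∃ k', k = r + k' := ⟨k - r, by omega⟩
  have hq : 1 < Fintype.card F := Fintype.one_lt_card
  set m := n - (r + k) with hm
  have hQ : 1 < Fintype.card F ^ m := Nat.one_lt_pow (by omega) hq
  obtain ⟨M, hM, hc⟩ : T F n (r + k) (r + 1) ∈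
      {N | ∃ M : Finset (Matrix (Fin (r + k)) (Fin m) F), Covers (r + 1) M ∧ M.card = N} :=
    Nat.sInf_mem ⟨_, Finset.univ, covers_univ, rfl⟩
  rw [← hc, Nat.add_sub_cancel]
  refine lower (by omega) (by omega) M hM _ ?_
  rintro j ⟨u, rfl⟩ hj
  rw [mul_comm]
  refine Nat.add_le_add_right (Nat.mul_le_mul_left _ ?_) 1
  have hQ' : (1 : ℚ) < (Fintype.card F : ℚ) ^ m := by exact_mod_cast hQ
  rw [Nat.ceil_le, div_le_iff₀ (by linarith)]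
  have : (((Fintype.card F - 1) * k : ℕ) : ℚ) ≤ (((Fintype.card F ^ m - 1) * u : ℕ) : ℚ) := by
    exact_mod_cast hj
  push_cast [Nat.cast_sub hq.le, Nat.cast_sub hQ.le] at this ⊢
  linarith

end Pool.Agent.Results.MP_5f4cd2_co.LowerBound
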