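import Pool.Agent.Lib.MP_5f4cd2_co.Upper

namespace Pool.Agent.Results.MP_5f4cd2_co.RankOneUpper

open Pool.Agent.Lib.MP_5f4cd2_co

/-- For `r = 1`, `m = n - k ≥ 1`, `q = |F|`, `t = (q^m - 1)/(q - 1)` and every integer `e ≥ 2`:
`T_q(n,k,1) ≤ 1 + (q-1) (k^(1/e) + 12 e m t^((e+1)/(e(e-1))))^e`. -/
theorem result (F : Type) [Field F] [Fintype F] (n k e : ℕ) (hkn : k < n) (he : 2 ≤ e) :
    (T F n k 1 : ℝ) ≤ 1 + ((Fintype.card F : ℝ) - 1) *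
      ((k : ℝ) ^ (1 / (e : ℝ)) + 12 * (e : ℝ) * ((n - k : ℕ) : ℝ) *
        (((Fintype.card F : ℝ) ^ (n - k) - 1) / ((Fintype.card F : ℝ) - 1)) ^
          (((e : ℝ) + 1) / ((e : ℝ) * ((e : ℝ) - 1)))) ^ e := by
  obtain ⟨d, rfl⟩ : ∃ d, e = d + 1 := ⟨e - 1, by omega⟩
  obtain ⟨M, hM, hc⟩ := upper (F := F) (m := n - k) (k := k) (d := d) (by omega) (by omega)
  have h1 : T F n k 1 ≤ M.card := Nat.sInf_le ⟨M, hM, rfl⟩
  have h2 : (T F n k 1 : ℝ) ≤ M.card := by exact_mod_cast h1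
  refine h2.trans (hc.trans_eq ?_)
  push_cast
  rw [add_sub_cancel_right, show (d : ℝ) + 1 + 1 = d + 2 by ring]

end Pool.Agent.Results.MP_5f4cd2_co.RankOneUpper
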